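import Pool.Agent.helper74.GN.Defs

/-!
# GNU project: the shapes of the two menus
-/

namespace Pool.Agent.helper74.GN

/-- The shape of the menu of order `w ^ 3`. -/
def IsW {B C D N : ℕ} (M : Menu B C D N) : Prop :=
  ∃ e : M.τ ≃ Fin 5 ⊕ Fin 2 ⊕ Unit,
    (∀ i, M.S (e.symm (.inl i)) = ⊤ ∧ M.DT (e.symm (.inl i))) ∧
    (∀ i, M.S (e.symm (.inr (.inl i))) = SB B C D ∧ M.DT (e.symm (.inr (.inl i)))) ∧
    (∀ u, M.S (e.symm (.inr (.inr u))) = SD B C D ∧ ¬ M.DT (e.symm (.inr (.inr u))))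

/-- The shape of the menu of order `v ^ 2`. -/
def IsV {B C D N : ℕ} (M : Menu B C D N) : Prop :=
  ∃ e : M.τ ≃ Fin (3 + (C + 3) / 2) ⊕ (Fin 3 × Fin 2),
    (∀ i, M.DT (e.symm (.inl i)) ∧ ∀ θ : Th B C D, θ.2.1 = 1 → θ ∈ M.S (e.symm (.inl i))) ∧
    (∀ i c, M.S (e.symm (.inr (i, c))) = TT B C D i c ∧
      (M.DT (e.symm (.inr (i, c))) ↔ i = 0))

end Pool.Agent.helper74.GN
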