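import Mathlib

/-!
# GNU project (MP_d11331_al): definitions for the group part
-/

namespace Pool.Agent.helper74.GN

/-- There are exactly `k` groups of order `n` up to isomorphism. -/
def Gnu (n k : ℕ) : Prop :=
  ∃ (G : Fin k → Type) (_ : ∀ i, Group (G i)),
    (∀ i, Nat.card (G i) = n) ∧
    (∀ i j, Nonempty (G i ≃* G j) → i = j) ∧
    ∀ (H : Type) [Group H], Nat.card H = n → ∃ i, Nonempty (H ≃* G i)

/-- The groups of order `n` up to isomorphism are classified by the type `ι`. -/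
def Classified (n : ℕ) (ι : Type) : Prop :=
  ∃ (G : ι → Type) (_ : ∀ i, Group (G i)),
    (∀ i, Nat.card (G i) = n) ∧
    (∀ i j, Nonempty (G i ≃* G j) → i = j) ∧
    ∀ (H : Type) [Group H], Nat.card H = n → ∃ i, Nonempty (H ≃* G i)

/-- The acting group `C_B × C_C × C_D`. -/
abbrev Q (B C D : ℕ) : Type :=
  Multiplicative (ZMod B) × Multiplicative (ZMod C) × Multiplicative (ZMod D)

/-- Its group of automorphisms. -/
abbrev Th (B C D : ℕ) : Type := (ZMod B)ˣ × (ZMod C)ˣ × (ZMod D)ˣ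

/-- Multiplication by a unit. -/
def sc {n : ℕ} (u : (ZMod n)ˣ) : Multiplicative (ZMod n) ≃* Multiplicative (ZMod n) :=
  AddEquiv.toMultiplicative (DistribMulAction.toAddEquiv (ZMod n) u)

/-- The automorphism of `Q` given by `θ`. -/
def tw {B C D : ℕ} (θ : Th B C D) : Q B C D ≃* Q B C D :=
  (sc θ.1).prodCongr ((sc θ.2.1).prodCongr (sc θ.2.2))

@[simp] theorem sc_apply {n : ℕ} (u : (ZMod n)ˣ) (x : Multiplicative (ZMod n)) :
    sc u x = Multiplicative.ofAdd ((u : ZMod n) * Multiplicative.toAdd x) := rfl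

@[simp] theorem tw_apply {B C D : ℕ} (θ : Th B C D) (q : Q B C D) :
    tw θ q = (sc θ.1 q.1, sc θ.2.1 q.2.1, sc θ.2.2 q.2.2) := rfl

theorem tw_mul {B C D : ℕ} (θ η : Th B C D) (q : Q B C D) : tw (θ * η) q = tw θ (tw η q) := by
  simp [mul_assoc]

theorem tw_one {B C D : ℕ} (q : Q B C D) : tw (1 : Th B C D) q = q := by
  simp

/-- The componentwise action on a product. -/
def pairHom {Q W V : Type} [Group Q] [Group W] [Group V] (φ : Q →* MulAut W)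
    (ψ : Q →* MulAut V) : Q →* MulAut (W × V) where
  toFun q := MulEquiv.prodCongr (φ q) (ψ q)
  map_one' := by
    refine MulEquiv.ext fun x => ?_
    show (φ 1 x.1, ψ 1 x.2) = x
    simp
  map_mul' p q := by
    refine MulEquiv.ext fun x => ?_
    show (φ (p * q) x.1, ψ (p * q) x.2) = (φ p (φ q x.1), ψ p (ψ q x.2))
    simp

@[simp] theorem pairHom_apply {Q W V : Type} [Group Q] [Group W] [Group V] (φ : Q →* MulAut W)
    (ψ : Q →* MulAut V) (q : Q) (x : W × V) : pairHom φ ψ q x = (φ q x.1, ψ q x.2) := rfl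

/-- A complete list of the `Q`-groups of order `N`, up to automorphisms of `Q`:
basic types `t : τ` with a `Q`-group `A t` and its stabiliser `S t` in `Aut Q`. -/
structure Menu (B C D N : ℕ) where
  τ : Type
  ft : Fintype τ
  A : τ → Type
  gr : ∀ t, Group (A t)
  card : ∀ t, Nat.card (A t) = N
  φ : ∀ t, Q B C D →* MulAut (A t)
  S : τ → Subgroup (Th B C D)
  stab : ∀ t, ∀ θ ∈ S t, ∃ e : A t ≃* A t, ∀ q x, e (φ t (tw θ q) x) = φ t q (e x)
  complete : ∀ (H : Type) [Group H], Nat.card H = N → ∀ ψ : Q B C D →* MulAut H,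
    ∃ (t : τ) (θ : Th B C D) (e : H ≃* A t), ∀ q x, e (ψ q x) = φ t (tw θ q) (e x)
  inj : ∀ (t t' : τ) (θ : Th B C D),
    (∃ e : A t ≃* A t', ∀ q, ∃ a : A t', ∀ x, e (φ t (tw θ q) x) = a * φ t' q (e x) * a⁻¹) →
    t = t' ∧ θ ∈ S t

attribute [instance] Menu.ft Menu.gr

/-- `D` acts trivially on the basic type `t`. -/
def Menu.DT {B C D N : ℕ} (M : Menu B C D N) (t : M.τ) : Prop :=
  ∀ z : Multiplicative (ZMod D), M.φ t (1, 1, z) = 1

/-- The group `(A t × A t') ⋊ Q` with the first action twisted by `θ`. -/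
abbrev Fam {B C D N₁ N₂ : ℕ} (M₁ : Menu B C D N₁) (M₂ : Menu B C D N₂) (t : M₁.τ) (t' : M₂.τ)
    (θ : Th B C D) : Type :=
  (M₁.A t × M₂.A t') ⋊[pairHom ((M₁.φ t).comp (tw θ).toMonoidHom) (M₂.φ t')] Q B C D

/-- The index type of the classification. -/
abbrev Idx {B C D N₁ N₂ : ℕ} (M₁ : Menu B C D N₁) (M₂ : Menu B C D N₂) : Type :=
  Σ p : M₁.τ × M₂.τ, Th B C D ⧸ (M₁.S p.1 ⊔ M₂.S p.2)

/-- The part of the index type on which `D` acts trivially. -/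
abbrev IdxD {B C D N₁ N₂ : ℕ} (M₁ : Menu B C D N₁) (M₂ : Menu B C D N₂) : Type :=
  Σ p : {p : M₁.τ × M₂.τ // M₁.DT p.1 ∧ M₂.DT p.2}, Th B C D ⧸ (M₁.S p.1.1 ⊔ M₂.S p.1.2)

/-- The numerical conditions on `B, C, D`. -/
structure HypQ (B C D : ℕ) : Prop where
  pB : B.Prime
  pC : C.Prime
  pD : D.Prime
  B7 : 7 < B
  C7 : 7 < C
  D7 : 7 < D
  BC : B ≠ C
  BD : B ≠ D
  CD : C ≠ D
  D42 : D % 42 = 1
  b7 : ¬ 7 ∣ B - 1
  c7 : ¬ 7 ∣ C - 1
  r1 : ¬ B ∣ C - 1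
  r2 : ¬ C ∣ B - 1
  r3 : ¬ B ∣ D - 1
  r4 : ¬ D ∣ B - 1
  r5 : ¬ C ∣ D - 1
  r6 : ¬ D ∣ C - 1

/-- The conditions on `w` relative to `B, C, D`. -/
structure HypW (B C D w : ℕ) : Prop where
  pw : w.Prime
  Bw : B < w
  Cw : C < w
  Dw : D < w
  wB : (w : ZMod B) = -1
  wD : (w : ZMod D) ^ 2 + (w : ZMod D) + 1 = 0
  wC : ∀ j : ℕ, 0 < j → j ≤ 3 → (w : ZMod C) ^ j ≠ 1
  w7 : ∀ j : ℕ, 0 < j → j ≤ 3 → (w : ZMod 7) ^ j ≠ 1

/-- The conditions on `v` relative to `B, C, D, w`. -/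
structure HypV (B C D w v : ℕ) : Prop where
  pv : v.Prime
  wv : w ^ 3 < v
  vB : (v : ZMod B) = -1
  vD : (v : ZMod D) = -1
  vC : (v : ZMod C) = 1
  v7 : ∀ j : ℕ, 0 < j → j ≤ 2 → (v : ZMod 7) ^ j ≠ 1
  vw : ∀ j : ℕ, 0 < j → j ≤ 2 → (v : ZMod w) ^ j ≠ 1

/-- Stabiliser of the types on which `B` acts on the group of order `w ^ 3`. -/
def SB (B C D : ℕ) : Subgroup (Th B C D) where
  carrier := {θ | θ.1 = 1 ∨ θ.1 = -1}
  mul_mem' := by
    rintro a b (ha | ha) (hb | hb) <;> simp [ha, hb]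
  one_mem' := by simp
  inv_mem' := by
    rintro a (ha | ha) <;> simp [ha]

/-- Stabiliser of the type on which `D` acts on the group of order `w ^ 3`. -/
def SD (B C D : ℕ) : Subgroup (Th B C D) where
  carrier := {θ | θ.2.2 ^ 3 = 1}
  mul_mem' := by
    intro a b ha hb
    simp only [Set.mem_setOf_eq, Prod.snd_mul] at *
    rw [mul_pow, ha, hb, one_mul]
  one_mem' := by simp
  inv_mem' := by
    intro a ha
    simp only [Set.mem_setOf_eq, Prod.snd_inv] at *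
    rw [inv_pow, ha, inv_one]

/-- Stabilisers of the six types on which `B` or `D` acts on the group of order `v ^ 2`:
`c = 0`: `C` trivial, `c = 1`: `C` by scalars; `i = 0`: only `B`, `i = 1`: only `D`,
`i = 2`: both. -/
def TT (B C D : ℕ) (i : Fin 3) (c : Fin 2) : Subgroup (Th B C D) where
  carrier := {θ | (c = 1 → θ.2.1 = 1) ∧ (i = 0 → (θ.1 = 1 ∨ θ.1 = -1)) ∧
    (i = 1 → (θ.2.2 = 1 ∨ θ.2.2 = -1)) ∧
    (i = 2 → ((θ.1 = 1 ∧ θ.2.2 = 1) ∨ (θ.1 = -1 ∧ θ.2.2 = -1)))}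
  mul_mem' := by
    rintro a b ⟨ha1, ha2, ha3, ha4⟩ ⟨hb1, hb2, hb3, hb4⟩
    refine ⟨fun h => by simp [ha1 h, hb1 h], fun h => ?_, fun h => ?_, fun h => ?_⟩
    · rcases ha2 h with h1 | h1 <;> rcases hb2 h with h2 | h2 <;> simp [h1, h2]
    · rcases ha3 h with h1 | h1 <;> rcases hb3 h with h2 | h2 <;> simp [h1, h2]
    · rcases ha4 h with ⟨h1, h1'⟩ | ⟨h1, h1'⟩ <;> rcases hb4 h with ⟨h2, h2'⟩ | ⟨h2, h2'⟩ <;>
        simp [h1, h2, h1', h2']
  one_mem' := by simp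
  inv_mem' := by
    rintro a ⟨ha1, ha2, ha3, ha4⟩
    refine ⟨fun h => by simp [ha1 h], fun h => ?_, fun h => ?_, fun h => ?_⟩
    · rcases ha2 h with h1 | h1 <;> simp [h1]
    · rcases ha3 h with h1 | h1 <;> simp [h1]
    · rcases ha4 h with ⟨h1, h1'⟩ | ⟨h1, h1'⟩ <;> simp [h1, h1']

end Pool.Agent.helper74.GN
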